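import Pool.Agent.H466.HN.Stm5

/-!
Project HN (helper466), HN-OFFC (helper894): from windows with a zero off the line to the number
of zeros off the line.
-/

set_option autoImplicit false

namespace Pool.Agent.H894.HN

open Complex MeasureTheory Set Filter Topology
open scoped ComplexConjugate
open Pool.Agent.H466.HF Pool.Agent.H466.LD Pool.Agent.H466.HP Pool.Agent.H466.HN
open Pool.Agent.H862.VK (Yz)

theorem offc (h : S_FORW) : S_OFFC := by
  classical
  intro T R μ m hμ hR hRT hm hvol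
  obtain ⟨A, K, μ0, Q, T0, hK, hμ0, hT0, k, hd⟩ := far_data
  have hne0 : LL gk 0 2 ≠ 0 :=
    F_ne ((hd T0 T0 le_rfl le_rfl (by linarith)).2.ne 2 (by norm_num))
  have hne : ∃ z, LL gk (-μ) z ≠ 0 := by
    by_contra hcon
    push Not at hcon
    have h1 := h μ hμ 2
    simp only [hcon, norm_zero, zero_mul, integral_zero] at h1
    have h2 : 0 < Real.sqrt (Real.pi * (4 * μ)) * ‖LL gk 0 2‖ :=
      mul_pos (Real.sqrt_pos.2 (by positivity)) (norm_pos_iff.2 hne0)
    linarith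
  have hfin := Pool.Agent.H333.HP.fin_zeros (k.differentiable (-μ)) hne
    (K := Icc (-R) R ×ℂ Icc T (2 * T)) (isCompact_Icc.reProdIm isCompact_Icc)
  obtain ⟨B, hB⟩ : ∃ B : Finset ℂ, B = hfin.toFinset.filter (fun z => z.re ≠ 0) := ⟨_, rfl⟩
  have hmem : ∀ z : ℂ, z ∈ B ↔ ((z.re ∈ Icc (-R) R ∧ z.im ∈ Icc T (2 * T)) ∧
      LL gk (-μ) z = 0) ∧ z.re ≠ 0 := by
    intro z
    rw [hB, Finset.mem_filter, Set.Finite.mem_toFinset]
    exact Iff.rfl
  refine ⟨B, fun z hz => ?_, ?_⟩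
  · obtain ⟨⟨⟨-, h1⟩, h2⟩, h3⟩ := (hmem z).1 hz
    exact ⟨h2, h3, h1.1, h1.2⟩
  have hsub : {t : ℝ | t ∈ Icc (T + R) (2 * T - R) ∧ ¬ RW t R μ} ⊆
      ⋃ z ∈ B, Ioo (z.im - R) (z.im + R) := by
    rintro t ⟨ht, hnot⟩
    unfold RW at hnot
    push Not at hnot
    obtain ⟨z, hz0, hzR, hzre⟩ := hnot
    have h1 : |z.re| < R := by
      refine lt_of_le_of_lt ?_ hzR
      have := Complex.abs_re_le_norm (z - (t : ℂ) * I)
      simpa using this
    have h2 : |z.im - t| < R := by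
      refine lt_of_le_of_lt ?_ hzR
      have := Complex.abs_im_le_norm (z - (t : ℂ) * I)
      simpa using this
    rw [abs_lt] at h1 h2
    have hzB : z ∈ B := (hmem z).2 ⟨⟨⟨⟨by linarith [h1.1], by linarith [h1.2]⟩,
      ⟨by linarith [h2.1, ht.1], by linarith [h2.2, ht.2]⟩⟩, hz0⟩, hzre⟩
    exact mem_biUnion (x := z) hzB ⟨by linarith [h2.2], by linarith [h2.1]⟩
  have hle : volume {t : ℝ | t ∈ Icc (T + R) (2 * T - R) ∧ ¬ RW t R μ} ≤
      ENNReal.ofReal (2 * R * (B.card : ℝ)) := by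
    refine (measure_mono hsub).trans ((measure_biUnion_finset_le B _).trans ?_)
    have h1 : ∀ z ∈ B, volume (Ioo (z.im - R) (z.im + R)) = ENNReal.ofReal (2 * R) := by
      intro z _
      rw [Real.volume_Ioo]
      congr 1
      ring
    rw [Finset.sum_congr rfl h1, Finset.sum_const, nsmul_eq_mul, mul_comm (2 * R),
      ENNReal.ofReal_mul (Nat.cast_nonneg _), ENNReal.ofReal_natCast]
  exact (ENNReal.ofReal_le_ofReal_iff (by positivity)).1 (hvol.trans hle)

end Pool.Agent.H894.HN
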